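import Pool.Agent.P.MP_676b89_lc.Wqo

/-!
The pumping properties of a propagating OS scheme make its derivation order a well-quasi-order.
-/

namespace Pool.Agent.Results.MP_676b89_lc.PumpingWqo

/-- One rewriting step `x₁ a x₂ ⇒ x₁ v x₂` with a production `a → v` of `P`. -/
def Step {σ : Type} (P : Finset (σ × List σ)) (x y : List σ) : Prop :=
  ∃ (x1 x2 : List σ) (a : σ) (v : List σ),
    (a, v) ∈ P ∧ x = x1 ++ [a] ++ x2 ∧ y = x1 ++ v ++ x2

/-- The derivation order: reflexive-transitive closure of `Step P`. -/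
def Derives {σ : Type} (P : Finset (σ × List σ)) : List σ → List σ → Prop :=
  Relation.ReflTransGen (Step P)

/-- The `k`-th power of the word `w`. -/
def power {σ : Type} (w : List σ) (k : ℕ) : List σ := (List.replicate k w).flatten

/-- Pumping property (a). -/
def PumpA {σ : Type} (P : Finset (σ × List σ)) : Prop :=
  ∀ w : List σ, w ≠ [] → ∃ k l : ℕ, k < l ∧ Derives P (power w k) (power w l)

/-- Pumping property (b). -/
def PumpB {σ : Type} (P : Finset (σ × List σ)) : Prop :=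
  ∀ w : List σ, w ≠ [] → ∃ k : ℕ, 1 < k ∧ Derives P w (power w k)

/-- Pumping property (c). -/
def PumpC {σ : Type} (P : Finset (σ × List σ)) : Prop :=
  ∀ w : List σ, w ≠ [] → ∃ (a : σ) (w1 w2 : List σ) (k : ℕ), 1 ≤ k ∧ w = w1 ++ [a] ++ w2 ∧
    Derives P [a] (power ([a] ++ w2 ++ w1) k ++ [a])

open Pool.Agent.P.MP_676b89_lc

theorem result {σ : Type} [Fintype σ] (P : Finset (σ × List σ)) (hP : ∀ r ∈ P, r.2 ≠ [])
    (h : PumpA P ∨ PumpB P ∨ PumpC P) :
    ∀ x : ℕ → List σ, ∃ i j : ℕ, i < j ∧ Derives P (x i) (x j) := by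
  have hD : ∀ u w, Derives P u w ↔ DL (P : Set (σ × List σ)) u w := fun u w => dl_iff.symm
  have hA : ∀ u : List σ, u ≠ [] → ∃ k l, k < l ∧ DL (P : Set (σ × List σ)) (pw u k) (pw u l) := by
    intro u hu
    rcases h with h | h | h
    · obtain ⟨k, l, h1, h2⟩ := h u hu
      exact ⟨k, l, h1, (hD _ _).mp h2⟩
    · obtain ⟨k, h1, h2⟩ := h u hu
      exact ⟨1, k, h1, by rw [pw_one]; exact (hD _ _).mp h2⟩
    · obtain ⟨a, w1, w2, k, h1, rfl, h2⟩ := h u hu
      refine ⟨1, k + 1, by omega, ?_⟩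
      have h3 : DL (P : Set (σ × List σ)) [a] (pw ([a] ++ w2 ++ w1) k ++ [a]) := (hD _ _).mp h2
      have h4 := h3.ctx w1 w2
      rw [pw_one, pw_succ', List.append_assoc w1 [a] w2, ← List.append_assoc (pw _ _),
        ← pw_rot w1 ([a] ++ w2) k]
      simpa using h4
  intro x
  obtain ⟨i, j, h1, h2⟩ := wqo_of_hleft (P := (P : Set (σ × List σ))) hP (hleft_of_a hP hA)
    (n := P.sup fun r => r.2.length)
    (fun r hr => Finset.le_sup (f := fun r : σ × List σ => r.2.length) hr) x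
  exact ⟨i, j, h1, (hD _ _).mpr h2⟩

end Pool.Agent.Results.MP_676b89_lc.PumpingWqo
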